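import Pool.Agent.Helper32.KD2.Basic
import Pool.Agent.Helper62.KD2.B1
/-! KD2-B1: Lipschitz bound in `(t,x)` and the transport derivative -/
namespace KD.II
open Finset MeasureTheory

theorem reg_lip {d : ℕ} {f ft : ℝ → Vd d → Vd d → ℝ} {fx fv : ℝ → Vd d → Vd d → (Vd d →L[ℝ] ℝ)}
    {fvv : ℝ → Vd d → Vd d → (Vd d →L[ℝ] Vd d →L[ℝ] ℝ)} {D : Set (ℝ × Vd d × Vd d)}
    (hR : Reg f ft fx fv fvv D) (hQ : Q1 d ⊆ D) :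
    ∃ C : ℝ, 0 ≤ C ∧ ∀ t x t' x' v, (t, x, v) ∈ Q1 d → (t', x', v) ∈ Q1 d →
      |f t x v - f t' x' v| ≤ C * (|t - t'| + ‖x - x'‖) := by
  apply KD.II.B1.reg_lip <;> assumption

theorem reg_tr {d : ℕ} {f ft : ℝ → Vd d → Vd d → ℝ} {fx fv : ℝ → Vd d → Vd d → (Vd d →L[ℝ] ℝ)}
    {fvv : ℝ → Vd d → Vd d → (Vd d →L[ℝ] Vd d →L[ℝ] ℝ)} {D : Set (ℝ × Vd d × Vd d)}
    (hR : Reg f ft fx fv fvv D) (hQ : Q1 d ⊆ D) :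
    ∀ e : ℝ, 0 < e → ∃ b : ℝ, 0 < b ∧ ∀ κ t x v, 0 < κ → κ ≤ b → (t, x, v) ∈ Q1 d →
      (t - κ, x - κ • v, v) ∈ Q1 d →
      f (t - κ) (x - κ • v) v ≤ f t x v - κ * (ft t x v + fx t x v v - e) := by
  apply KD.II.B1.reg_tr <;> assumption

end KD.II
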