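import Pool.Agent.Helper32.KD2.Basic
import Pool.Agent.Helper67.KD2.B2
/-! KD2-B2: second differences in `v`, boundedness and uniform continuity on `Q1` -/
namespace KD.II
open Finset MeasureTheory

theorem reg_sd {d : ℕ} {f ft : ℝ → Vd d → Vd d → ℝ} {fx fv : ℝ → Vd d → Vd d → (Vd d →L[ℝ] ℝ)}
    {fvv : ℝ → Vd d → Vd d → (Vd d →L[ℝ] Vd d →L[ℝ] ℝ)} {D : Set (ℝ × Vd d × Vd d)}
    (hR : Reg f ft fx fv fvv D) (hQ : Q1 d ⊆ D) :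
    ∃ C : ℝ, 0 ≤ C ∧ ∀ t x v w w', -1 ≤ t → t ≤ 0 → ‖x‖ ≤ 1 → ‖v‖ + ‖w‖ ≤ 1 → ‖w'‖ ≤ ‖w‖ →
      |(f t x (v + w') + f t x (v - w')) - (f t x (v + w) + f t x (v - w))| ≤
        C * ‖w - w'‖ * ‖w‖ := by
  apply KD.II.B2.reg_sd <;> assumption

theorem reg_uc {d : ℕ} {f ft : ℝ → Vd d → Vd d → ℝ} {fx fv : ℝ → Vd d → Vd d → (Vd d →L[ℝ] ℝ)}
    {fvv : ℝ → Vd d → Vd d → (Vd d →L[ℝ] Vd d →L[ℝ] ℝ)} {D : Set (ℝ × Vd d × Vd d)}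
    (hR : Reg f ft fx fv fvv D) (hQ : Q1 d ⊆ D) :
    ∀ e : ℝ, 0 < e → ∃ b : ℝ, 0 < b ∧ ∀ t x v t' x' v', (t, x, v) ∈ Q1 d →
      (t', x', v') ∈ Q1 d → |t - t'| ≤ b → ‖x - x'‖ ≤ b → ‖v - v'‖ ≤ b →
      |f t x v - f t' x' v'| ≤ e := by
  apply KD.II.B2.reg_uc <;> assumption

end KD.II
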