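import Pool.Agent.Helper32.KD2.Basic
import Pool.Agent.Helper71.KD2.C1
/-! KD2-C1: rounding towards zero -/
namespace KD.II
open Finset MeasureTheory

theorem trz_neg (x : ℝ) : trz (-x) = -trz x := by
  apply KD.II.C1.trz_neg <;> assumption

theorem trz_tdiv (x : ℝ) (m : ℕ) : trz (x / 2 ^ m) = (trz x).tdiv (2 ^ m) := by
  apply KD.II.C1.trz_tdiv <;> assumption

theorem abs_trz_le (x : ℝ) : |(trz x : ℝ)| ≤ |x| := by
  apply KD.II.C1.abs_trz_le <;> assumption

theorem abs_sub_trz_lt (x : ℝ) : |x - trz x| < 1 := by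
  apply KD.II.C1.abs_sub_trz_lt <;> assumption

theorem abs_sub_trz_le (x : ℝ) : |x - trz x| ≤ |x| := by
  apply KD.II.C1.abs_sub_trz_le <;> assumption

theorem le_abs_trz (n : ℕ) (x : ℝ) : (n : ℤ) ≤ |trz x| ↔ (n : ℝ) ≤ |x| := by
  apply KD.II.C1.le_abs_trz <;> assumption

/-- the fibre of `trz` over `k` contains a closed interval of length one up to its end point -/
theorem trz_fibre (k : ℤ) : ∃ c : ℝ, ∀ x : ℝ, c < x → x < c + 1 → trz x = k := by
  apply KD.II.C1.trz_fibre <;> assumption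

theorem trz_measurable : Measurable trz := by
  apply KD.II.C1.trz_measurable <;> assumption

end KD.II
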