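import Pool.Agent.Helper32.KD2.Basic
import Pool.Agent.Helper96.KD2.C2
/-! KD2-C2: the cells.  May use C1 (import Pool.Agent.Helper32.KD2.St.C1). -/
namespace KD.II
open Finset MeasureTheory

theorem mem_ThF {d J : ℕ} {l : Fin d → ℤ} :
    l ∈ ThF d J ↔ (∃ i, (2 : ℤ) ^ J ≤ |l i|) ∧ ∀ i, |l i| < 2 ^ (J + 1) := by
  apply KD.II.C2.mem_ThF <;> assumption

theorem neg_mem_ThF {d J : ℕ} {l : Fin d → ℤ} (hl : l ∈ ThF d J) : -l ∈ ThF d J := by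
  apply KD.II.C2.neg_mem_ThF <;> assumption

theorem cel_meas {d J : ℕ} (l : Fin d → ℤ) : MeasurableSet (cel d J l) := by
  apply KD.II.C2.cel_meas <;> assumption

theorem trv_scale {d J j : ℕ} {l : Fin d → ℤ} {w : Vd d} (hw : w ∈ cel d J l) (hj : j ≤ J) :
    trv ((2 : ℝ) ^ j • w) = ijmp J j l := by
  apply KD.II.C2.trv_scale <;> assumption

theorem trv_mem_iff {d J : ℕ} (hd : 1 ≤ d) (w : Vd d) :
    trv ((2 : ℝ) ^ J • w) ∈ ThF d J ↔ w ∈ ann d 1 2 := by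
  apply KD.II.C2.trv_mem_iff <;> assumption

theorem cel_sub_ann {d J : ℕ} (hd : 1 ≤ d) {l : Fin d → ℤ} (hl : l ∈ ThF d J) :
    cel d J l ⊆ ann d 1 2 := by
  apply KD.II.C2.cel_sub_ann <;> assumption

theorem neg_mem_cel {d J : ℕ} {l : Fin d → ℤ} {w : Vd d} (hw : w ∈ cel d J l) :
    -w ∈ cel d J (-l) := by
  apply KD.II.C2.neg_mem_cel <;> assumption

theorem ijmp_neg {d J j : ℕ} (l : Fin d → ℤ) : ijmp J j (-l) = -ijmp J j l := by
  apply KD.II.C2.ijmp_neg <;> assumption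

/-- scaled indices lie in the annulus at scale `j` -/
theorem ijmp_ann {d J j : ℕ} {l : Fin d → ℤ} (hl : l ∈ ThF d J) (hj : j ≤ J) :
    (∃ i, (2 : ℤ) ^ j ≤ |ijmp J j l i|) ∧ ∀ i, |ijmp J j l i| < 2 ^ (j + 1) := by
  apply KD.II.C2.ijmp_ann <;> assumption

end KD.II
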