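import Pool.Agent.Helper32.KD2.Basic
import Pool.Agent.Helper50.KD2.C3
/-! KD2-C3: masses of the cells.  May use A1, C1, C2. -/
namespace KD.II
open Finset MeasureTheory

theorem cel_integrable {d J : ℕ} (hd : 1 ≤ d) {s : ℝ} (hs : 0 < s) {l : Fin d → ℤ}
    (hl : l ∈ ThF d J) : IntegrableOn (kw d s) (cel d J l) := by
  apply KD.II.C3.cel_integrable <;> assumption

theorem mass_pos {d J : ℕ} (hd : 1 ≤ d) {s : ℝ} (hs : 0 < s) {l : Fin d → ℤ}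
    (hl : l ∈ ThF d J) : 0 < mass d s J l := by
  apply KD.II.C3.mass_pos <;> assumption

theorem mass_neg {d J : ℕ} {s : ℝ} (l : Fin d → ℤ) : mass d s J (-l) = mass d s J l := by
  apply KD.II.C3.mass_neg <;> assumption

theorem mass_sum {d J : ℕ} (hd : 1 ≤ d) {s : ℝ} (hs : 0 < s) :
    ∑ l ∈ ThF d J, mass d s J l ≤ 4 ^ d := by
  apply KD.II.C3.mass_sum <;> assumption

theorem mass_cover {d J j : ℕ} (hd : 1 ≤ d) {s : ℝ} (hs : 0 < s) (hj : j ≤ J) (l : Fin d → ℤ)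
    (hl : ∃ i, (2 : ℤ) ^ j ≤ |l i|) (hl' : ∀ i, |l i| < 2 ^ (j + 1)) :
    (2 : ℝ) ^ (-((d : ℝ) + 2 * s)) / 2 ^ (d * j) ≤
      ∑ θ ∈ ThF d J, if ijmp J j θ = l then mass d s J θ else 0 := by
  apply KD.II.C3.mass_cover <;> assumption

end KD.II
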