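import Pool.Agent.Helper32.KD2.Basic
import Pool.Agent.Helper59.KD2.C4
/-! KD2-C4: the jump system on the torus.  May use C1, C2, C3. -/
namespace KD.II
open Finset MeasureTheory

theorem exists_sys (d : ℕ) (hd : 1 ≤ d) (s : ℝ) (hs : 0 < s) (K N : ℕ) [NeZero N]
    (hN : 2 ^ (K + 6) ≤ N) :
    ∃ S : JSys d N (K + 3) ((2 : ℝ) ^ (-((d : ℝ) + 2 * s))) (4 ^ d) (Th d (K + 3)),
      (∀ θ, S.m θ = mass d s (K + 3) θ.1) ∧ (∀ θ, (S.neg θ).1 = -θ.1) ∧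
      (∀ j θ i, S.pi j θ i = ((ijmp (K + 3) j θ.1 i : ℤ) : ZMod N)) := by
  apply KD.II.C4.exists_sys <;> assumption

end KD.II
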