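import Pool.Agent.Helper32.KD2.Basic
import Pool.Agent.Helper76.KD2.C5
/-! KD2-C5: the averaged coefficients.  May use A1, C1, C2, C3. -/
namespace KD.II
open Finset MeasureTheory

theorem acf_lo {d J j : ℕ} (hd : 1 ≤ d) {s lam Lam : ℝ} (hs : 0 < s) {b : Vd d → ℝ}
    (hb : Adm lam Lam b) (h : ℝ) {l : Fin d → ℤ} (hl : l ∈ ThF d J) : lam ≤ acf s b h J j l := by
  apply KD.II.C5.acf_lo <;> assumption

theorem acf_hi {d J j : ℕ} (hd : 1 ≤ d) {s lam Lam : ℝ} (hs : 0 < s) {b : Vd d → ℝ}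
    (hb : Adm lam Lam b) (h : ℝ) {l : Fin d → ℤ} (hl : l ∈ ThF d J) : acf s b h J j l ≤ Lam := by
  apply KD.II.C5.acf_hi <;> assumption

theorem acf_neg {d J j : ℕ} {s lam Lam : ℝ} {b : Vd d → ℝ} (hb : Adm lam Lam b) (h : ℝ)
    (l : Fin d → ℤ) : acf s b h J j (-l) = acf s b h J j l := by
  apply KD.II.C5.acf_neg <;> assumption

theorem acf_bv {d J : ℕ} (hd : 1 ≤ d) {s lam Lam M0 : ℝ} (hs : 0 < s) {b : Vd d → ℝ}
    (hb : Adm lam Lam b) {h : ℝ} (hh : 0 < h) (hh1 : h * 2 ^ (J + 1) ≤ 1)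
    (hbv : ∀ w, ‖w‖ ≤ 1 → ∀ n : ℕ,
      ∑ j ∈ range n, |b ((1 / 2 : ℝ) ^ (j + 1) • w) - b ((1 / 2 : ℝ) ^ j • w)| ≤ M0)
    {l : Fin d → ℤ} (hl : l ∈ ThF d J) :
    ∑ j ∈ range J, |acf s b h J (j + 1) l - acf s b h J j l| ≤ M0 := by
  apply KD.II.C5.acf_bv <;> assumption

end KD.II
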