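import Pool.Agent.Helper32.KD2.Basic
import Pool.Agent.Helper41.KD2.C6
/-! KD2-C6: change of variables identity (II.2 of the paper).  May use A1, C1, C2, C3. -/
namespace KD.II
open Finset MeasureTheory

theorem jump_identity {d J : ℕ} (hd : 1 ≤ d) {s lam Lam : ℝ} (hs : 0 < s) {b : Vd d → ℝ}
    (hb : Adm lam Lam b) {h : ℝ} (hh : 0 < h) (Φ : Vd d → ℝ) :
    IntegrableOn (fun w => b w * Φ (rtr h w) * kw d s w) (ann d h (h * 2 ^ (J + 1))) ∧
    ∑ j ∈ range (J + 1), ∑ l ∈ ThF d J,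
      mass d s J l / tim s j * acf s b h J j l * Φ (rjmp h J j l) =
    h ^ (2 * s) * ∫ w in ann d h (h * 2 ^ (J + 1)), b w * Φ (rtr h w) * kw d s w := by
  apply KD.II.C6.jump_identity <;> assumption

end KD.II
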