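import Pool.Agent.Helper32.KD2.Basic
import Pool.Agent.Helper30.KD2.A1
/-! KD2-A1: integrals of powers of the sup norm -/
namespace KD.II
open Finset MeasureTheory

theorem far_integrable (d : ℕ) (hd : 1 ≤ d) (s : ℝ) (hs : 0 < s) (ρ : ℝ) (hρ : 0 < ρ) :
    IntegrableOn (kw d s) (far d ρ) := by
  apply KD.II.A1.far_integrable <;> assumption

theorem near_bound (d : ℕ) (hd : 1 ≤ d) (s : ℝ) (hs : 0 < s) (hs1 : s < 1) :
    ∃ C : ℝ, 0 ≤ C ∧ ∀ h : ℝ, 0 < h →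
      IntegrableOn (fun w : Vd d => ‖w‖ ^ 2 * kw d s w) (bal d h) ∧
      ∫ w in bal d h, ‖w‖ ^ 2 * kw d s w ≤ C * h ^ (2 - 2 * s) := by
  apply KD.II.A1.near_bound <;> assumption

theorem mid_integrable (d : ℕ) (hd : 1 ≤ d) (s : ℝ) (hs : 0 < s) (hs1 : s < 1) :
    IntegrableOn (fun w : Vd d => ‖w‖ ^ (1 + s) * kw d s w) (bal d 1) := by
  apply KD.II.A1.mid_integrable <;> assumption

end KD.II
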