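import Pool.Agent.Helper32.KD2.Basic
import Pool.Agent.Helper65.KD2.D1
/-! KD2-D1: replacing `f(v+w)` by `f(v+rtr h w)` (II.3 (iii)).  May use A1, C1. -/
namespace KD.II
open Finset MeasureTheory

theorem sym_err (d : ℕ) (hd : 1 ≤ d) (s lam Lam : ℝ) (hs : 0 < s) (hs1 : s < 1) (hlam : 0 < lam)
    (hLam : lam ≤ Lam) :
    ∃ C : ℝ, 0 ≤ C ∧ ∀ (η Cf : ℝ) (a : ℝ → Vd d → Vd d → Vd d → ℝ) (f G : ℝ → Vd d → Vd d → ℝ)
      (_ : Loc s η a f G Cf) (b : Vd d → ℝ) (_ : Adm lam Lam b) (t : ℝ) (x v : Vd d) (h ρ : ℝ),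
      -1 ≤ t → t ≤ 0 → ‖x‖ ≤ 1 → 0 < h → ‖v‖ + ρ ≤ 1 →
      |(∫ w in ann d h ρ, b w * (f t x (v + rtr h w) - f t x v) * kw d s w) -
        (1 / 2) * ∫ w in ann d h ρ, (f t x (v + w) + f t x (v - w) - 2 * f t x v) * b w *
          kw d s w| ≤ C * Cf * h ^ (1 - s) := by
  apply KD.II.D1.sym_err <;> assumption

end KD.II
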