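import Pool.Agent.Helper32.KD2.Basic
import Pool.Agent.Helper51.KD2.D2
/-! KD2-D2: lower bound of the operator by its middle part (II.3 (iv),(v)).  May use A1. -/
namespace KD.II
open Finset MeasureTheory

theorem Lop_lower (d : ℕ) (hd : 1 ≤ d) (s lam Lam : ℝ) (hs : 0 < s) (hs1 : s < 1) (hlam : 0 < lam)
    (hLam : lam ≤ Lam) :
    ∃ C : ℝ, 0 ≤ C ∧ ∀ (η Cf : ℝ) (a : ℝ → Vd d → Vd d → Vd d → ℝ) (f G : ℝ → Vd d → Vd d → ℝ)
      (_ : Loc s η a f G Cf) (_ : ∀ t x v, 0 ≤ f t x v) (t : ℝ) (x v : Vd d)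
      (_ : Adm lam Lam (a t x v)) (h ρ : ℝ),
      -1 ≤ t → t ≤ 0 → ‖x‖ ≤ 1 → 0 < h → h ≤ ρ → ‖v‖ + ρ ≤ 1 →
      (1 / 2) * (∫ w in ann d h ρ, (f t x (v + w) + f t x (v - w) - 2 * f t x v) * a t x v w *
          kw d s w) - C * Cf * h ^ (2 - 2 * s) - (Lam * ∫ w in far d ρ, kw d s w) * f t x v ≤
        Lop s a f t x v := by
  apply KD.II.D2.Lop_lower <;> assumption

end KD.II
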