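import Pool.Agent.Helper32.KD2.Basic
import Pool.Agent.Helper54.KD2.D3
/-! KD2-D3: the one step inequality (II.3).  May use A1, C2, C3, C5, C6, D1, D2. -/
namespace KD.II
open Finset MeasureTheory

theorem one_step (d : ℕ) (hd : 1 ≤ d) (s lam Lam : ℝ) (hs : 0 < s) (hs1 : s < 1) (hlam : 0 < lam)
    (hLam : lam ≤ Lam) (η Cf : ℝ) (a : ℝ → Vd d → Vd d → Vd d → ℝ)
    (f G : ℝ → Vd d → Vd d → ℝ) (hL : Loc s η a f G Cf) (hnn : ∀ t x v, 0 ≤ f t x v)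
    (ha : ∀ t x v, Adm lam Lam (a t x v)) :
    ∀ e : ℝ, 0 < e → ∃ K0 : ℕ, ∀ K : ℕ, K0 ≤ K → ∃ ε0 : ℝ, 0 < ε0 ∧ ∀ ε : ℝ, 0 < ε → ε ≤ ε0 →
      ∀ (t : ℝ) (x v : Vd d), -(1 / 2) ≤ t → t ≤ 0 → ‖x‖ ≤ 1 / 4 → ‖v‖ ≤ 1 / 4 →
      oneL s ε (kk s ε K) (hh K) (K + 3) (a t x v) f t x v ≤
        (1 + kk s ε K * k0 d s Lam) * f t x v + kk s ε K * (η + e) := by
  apply KD.II.D3.one_step <;> assumption

end KD.II
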