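import Pool.Agent.Helper32.KD2.Basic
import Pool.Agent.Helper87.KD2.E1
/-! KD2-E1: no wrap around on the torus -/
namespace KD.II
open Finset MeasureTheory

theorem vma_add {N : ℕ} [NeZero N] (i j : ZMod N)
    (h : 2 * (|i.valMinAbs| + |j.valMinAbs|) < (N : ℤ)) :
    (i + j).valMinAbs = i.valMinAbs + j.valMinAbs := by
  apply KD.II.E1.vma_add <;> assumption

theorem vma_cast {N : ℕ} [NeZero N] (m : ℤ) (h : 2 * |m| < (N : ℤ)) :
    ((m : ZMod N)).valMinAbs = m := by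
  apply KD.II.E1.vma_cast <;> assumption

/-- shift of the real coordinates without wrap around -/
theorem shift_bound {d N : ℕ} [NeZero N] {κ h : ℝ} (hκ : 0 < κ) (hh : 0 < h) (z w : GG d N)
    (hz : z ∈ win κ h) (h1 : 1 / (κ * h) + 2 * n1 w.1 < N) (h2 : 1 / h + 2 * n1 w.2 < N) :
    ‖px κ h (z + w) - px κ h z‖ ≤ κ * h * n1 w.1 ∧ ‖pv h (z + w) - pv h z‖ ≤ h * n1 w.2 := by
  apply KD.II.E1.shift_bound <;> assumption

end KD.II
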