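import Pool.Agent.Helper32.KD2.Basic
import Pool.Agent.Helper83.KD2.E2
/-! KD2-E2: one step of the chain on samples is `oneL`; coordinates after one step.
May use C2 (`ijmp_ann`), E1. -/
namespace KD.II
open Finset MeasureTheory

theorem coord_jump {d N J : ℕ} [NeZero N] {κ h : ℝ} (hκ : 0 < κ) (hh : 0 < h)
    (hN : 1 / (κ * h) + 1 / h + 2 ^ (J + 3) < N) (z : GG d N) (hz : z ∈ win κ h) (p : V d N)
    (m : Fin d → ℤ) (hm : ∀ i, |m i| < 2 ^ (J + 1)) (hp : ∀ i, p i = ((m i : ℤ) : ZMod N)) :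
    pv h (Ap 1 (z + vs p)) = pv h z + (fun i => h * ((m i : ℤ) : ℝ)) ∧
    px κ h (Ap 1 (z + vs p)) = px κ h z - κ • (pv h z + (fun i => h * ((m i : ℤ) : ℝ))) := by
  apply KD.II.E2.coord_jump <;> assumption

theorem gen_smp {d N J : ℕ} [NeZero N] (hd : 1 ≤ d) {s lam κ h ε c0 C0 : ℝ} (hκ : 0 < κ)
    (hh : 0 < h) (hN : 1 / (κ * h) + 1 / h + 2 ^ (J + 3) < N)
    (S : JSys d N J c0 C0 (Th d J)) (hSm : ∀ θ, S.m θ = mass d s J θ.1)
    (hSpi : ∀ j θ i, S.pi j θ i = ((ijmp J j θ.1 i : ℤ) : ZMod N))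
    (a : ℝ → Vd d → Vd d → Vd d → ℝ) (f : ℝ → Vd d → Vd d → ℝ) (n : ℕ) (z : GG d N)
    (hz : z ∈ win κ h) :
    gen S s ε (cof s lam κ h J a n) (smp κ h f (n + 1)) z =
      oneL s ε κ h J (a (-(n * κ)) (px κ h z) (pv h z)) f (-(n * κ)) (px κ h z) (pv h z) := by
  apply KD.II.E2.gen_smp <;> assumption

end KD.II
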