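import Pool.Agent.Helper32.KD2.Basic
import Pool.Agent.Helper57.KD2.F1
/-! KD2-F1: duality, positivity, monotonicity and mass of one step -/
namespace KD.II
open Finset MeasureTheory

variable {d N J : ℕ} [NeZero N] {c0 C0 : ℝ} {Θ : Type} [Fintype Θ] (S : JSys d N J c0 C0 Θ)
  {s ε lam Lam M0 : ℝ} {a : ℕ → Θ → GG d N → ℝ}

theorem step_dual (ha : S.Coef lam Lam M0 a) (ν g : GG d N → ℝ) :
    ∑ z, S.step s ε a ν z * g z = ∑ z, ν z * gen S s ε a g z := by
  apply KD.II.F1.step_dual <;> assumption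

theorem step_sum (ha : S.Coef lam Lam M0 a) (ν : GG d N → ℝ) :
    ∑ z, S.step s ε a ν z = ∑ z, ν z := by
  apply KD.II.F1.step_sum <;> assumption

theorem step_mono (hlam : 0 ≤ lam) (hε : 0 ≤ ε) (hr : ε * Lam * rate S s ≤ 1)
    (ha : S.Coef lam Lam M0 a) (ν ν' : GG d N → ℝ) (h : ∀ z, ν z ≤ ν' z) (z : GG d N) :
    S.step s ε a ν z ≤ S.step s ε a ν' z := by
  exact KD.II.F1.step_mono S hlam hε hr ha ν ν' h z

theorem step_nonneg (hlam : 0 ≤ lam) (hε : 0 ≤ ε) (hr : ε * Lam * rate S s ≤ 1)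
    (ha : S.Coef lam Lam M0 a) (ν : GG d N → ℝ) (h : ∀ z, 0 ≤ ν z) (z : GG d N) :
    0 ≤ S.step s ε a ν z := by
  exact KD.II.F1.step_nonneg S hlam hε hr ha ν h z

/-- the total rate is bounded, uniformly in the number of scales -/
theorem rate_le (hs : 0 < s) : rate S s ≤ C0 / (1 - (2 : ℝ) ^ (-(2 * s))) := by
  apply KD.II.F1.rate_le <;> assumption

end KD.II
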