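import Pool.Agent.Helper32.KD2.Basic
import Pool.Agent.Helper68.KD2.F2
/-! KD2-F2: the killed chain (II.4).  May use F1. -/
namespace KD.II
open Finset MeasureTheory

variable {d N J : ℕ} [NeZero N] {c0 C0 : ℝ} {Θ : Type} [Fintype Θ] (S : JSys d N J c0 C0 Θ)
  {s ε lam Lam M0 : ℝ} {a : ℕ → ℕ → Θ → GG d N → ℝ}

theorem kil_nonneg (hlam : 0 ≤ lam) (hε : 0 ≤ ε) (hr : ε * Lam * rate S s ≤ 1)
    (ha : ∀ n, S.Coef lam Lam M0 (a n)) (W : Set (GG d N)) (n : ℕ) (z : GG d N) :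
    0 ≤ kil S s ε a W n z := by
  exact KD.II.F2.kil_nonneg S hlam hε hr ha W n z

theorem kil_le_chain (hlam : 0 ≤ lam) (hε : 0 ≤ ε) (hr : ε * Lam * rate S s ≤ 1)
    (ha : ∀ n, S.Coef lam Lam M0 (a n)) (W : Set (GG d N)) (n : ℕ) (z : GG d N) :
    kil S s ε a W n z ≤ S.chain s ε a n z := by
  exact KD.II.F2.kil_le_chain S hlam hε hr ha W n z

theorem kil_mass (hlam : 0 ≤ lam) (hε : 0 ≤ ε) (hr : ε * Lam * rate S s ≤ 1)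
    (ha : ∀ n, S.Coef lam Lam M0 (a n)) (W : Set (GG d N)) (n : ℕ) :
    ∑ z, kil S s ε a W n z ≤ 1 := by
  exact KD.II.F2.kil_mass S hlam hε hr ha W n

/-- (a) of II.4 -/
theorem kil_super (hlam : 0 ≤ lam) (hε : 0 ≤ ε) (hr : ε * Lam * rate S s ≤ 1)
    (ha : ∀ n, S.Coef lam Lam M0 (a n)) (W : Set (GG d N)) (g : ℕ → GG d N → ℝ)
    (hg : ∀ n z, 0 ≤ g n z) (k r : ℝ) (hk : 0 ≤ k) (hr0 : 0 ≤ r) (T : ℕ)
    (hgen : ∀ n < T, ∀ z ∈ W, gen S s ε (a n) (g (n + 1)) z ≤ (1 + k) * g n z + r)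
    (n : ℕ) (hn : n ≤ T) :
    inW W (kil S s ε a W n) (g n) ≤ (1 + k) ^ n * (g 0 0 + n * r) := by
  exact KD.II.F2.kil_super S hlam hε hr ha W g hg k r hk hr0 T hgen n hn

/-- (b) of II.4 -/
theorem kil_exit (hlam : 0 ≤ lam) (hε : 0 ≤ ε) (hr : ε * Lam * rate S s ≤ 1)
    (ha : ∀ n, S.Coef lam Lam M0 (a n)) (W : Set (GG d N)) (h0 : (0 : GG d N) ∈ W)
    (Ψ : GG d N → ℝ) (hΨ : ∀ z, 0 ≤ Ψ z) (hΨ0 : Ψ 0 = 0) (hΨ1 : ∀ z, z ∉ W → 1 ≤ Ψ z)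
    (c : ℝ) (hc : 0 ≤ c)
    (hgen : ∀ n, ∀ z ∈ W, gen S s ε (a n) Ψ z ≤ Ψ z + c) (n : ℕ) :
    1 - n * c ≤ inW W (kil S s ε a W n) (fun _ => 1) := by
  exact KD.II.F2.kil_exit S hlam hε hr ha W h0 Ψ hΨ hΨ0 hΨ1 c hc hgen n

end KD.II
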