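import Pool.Agent.Helper32.KD2.Basic
import Pool.Agent.Helper25.KD2.G1
/-! KD2-G1: effect of the noise (II.5) -/
namespace KD.II
open Finset MeasureTheory

theorem noise_markov {d N : ℕ} [NeZero N] {R Cs : ℝ} (hR : 0 < R) (hCs : 0 < Cs)
    (q0 : GG d N → ℝ) (hq : ∀ z, 0 ≤ q0 z) (hq1 : ∑ z, q0 z = 1)
    (hm : ∑ z, q0 z * nrm 1 R z ≤ Cs) (μ : GG d N → ℝ) (hμ : ∀ z, 0 ≤ μ z)
    (B A : Finset (GG d N))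
    (hBA : ∀ z ∈ B, ∀ w, nrm 1 R w ≤ 2 * Cs → z + w ∈ A) :
    ∑ z ∈ B, μ z ≤ 2 * ∑ z ∈ A, cv q0 μ z := by
  exact KD.II.G1.noise_markov hR hCs q0 hq hq1 hm μ hμ B A hBA

end KD.II
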