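import Pool.Agent.Helper32.KD2.Basic
import Pool.Agent.Helper25.KD2.G2
/-! KD2-G2: counting lattice points in kinetic boxes (II.5) -/
namespace KD.II
open Finset MeasureTheory

open Classical in
theorem count_box {d N : ℕ} [NeZero N] (κ h : ℝ) (hκ : 0 < κ) (hh : 0 < h) (tb : ℝ)
    (xb vb : Vd d) (α ξ β : ℝ) (hα : 0 ≤ α) (hξ : 0 ≤ ξ) (hβ : 0 ≤ β) (T : ℕ) :
    ∑ n ∈ range T, ((univ.filter (fun z : GG d N =>
      ((-(n * κ) : ℝ), px κ h z, pv h z) ∈ KBox tb xb vb α ξ β)).card : ℝ) ≤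
      (α / κ + 1) * (β / h + 1) ^ d * (ξ / (κ * h) + 1) ^ d := by
  apply KD.II.G2.count_box <;> assumption

end KD.II
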