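import Pool.Agent.Helper32.KD2.Basic
import Pool.Agent.Helper95.KD2.F3
/-! KD2-F3: drift of the exit function (II.4 (b)).  May use C2, E1, E2, F1. -/
namespace KD.II
open Finset MeasureTheory

theorem Psi_drift (d : ℕ) (hd : 1 ≤ d) (s lam Lam M0 C0 : ℝ) (hs : 0 < s) (hs1 : s < 1)
    (hlam : 0 < lam) (hLam : lam ≤ Lam) (hC0 : 0 ≤ C0) :
    ∃ C : ℝ, 0 ≤ C ∧ ∀ (K N : ℕ) [NeZero N] (ε c0 : ℝ) (_ : 0 < ε) (_ : ε ≤ 1)
      (S : JSys d N (K + 3) c0 C0 (Th d (K + 3)))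
      (_ : ∀ j θ i, S.pi j θ i = ((ijmp (K + 3) j θ.1 i : ℤ) : ZMod N))
      (_ : 1 / (kk s ε K * hh K) + 1 / hh K + 2 ^ (K + 6) < N)
      (_ : ε * Lam * rate S s ≤ 1)
      (a : ℕ → Th d (K + 3) → GG d N → ℝ) (_ : S.Coef lam Lam M0 a) (z : GG d N)
      (_ : z ∈ win (kk s ε K) (hh K)),
      gen S s ε a (Psi (kk s ε K) (hh K)) z ≤ Psi (kk s ε K) (hh K) z + kk s ε K * C := by
  apply KD.II.F3.Psi_drift <;> assumption

theorem Psi_off {d N : ℕ} [NeZero N] {κ h : ℝ} (z : GG d N) (hz : z ∉ win κ h) :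
    1 ≤ Psi κ h z := by
  apply KD.II.F3.Psi_off <;> assumption

end KD.II
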